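import Pool.Agent.H242.GX.Stm

/-! Project GX (helper242), task GX-TAU (helper25): explicit calculus with support functions. -/

set_option autoImplicit false

open Set Filter Topology
open scoped ContDiff

namespace Pool.Agent.H25.GX

open Pool.Agent.H242.GX

theorem smooth_d {p : ℝ → ℝ} (h : ContDiff ℝ ∞ p) : ContDiff ℝ ∞ (deriv p) :=
  (contDiff_infty_iff_deriv.1 h).2

theorem hd {p : ℝ → ℝ} (h : ContDiff ℝ ∞ p) (α : ℝ) : HasDerivAt p (deriv p α) α :=
  (h.differentiable (by simp)).differentiableAt.hasDerivAt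

theorem hd_shift {p : ℝ → ℝ} (h : ContDiff ℝ ∞ p) (θ β : ℝ) :
    HasDerivAt (fun b => p (θ + b)) (deriv p (θ + β)) β :=
  (hd h (θ + β)).comp_const_add θ β

theorem Nf_deriv {p : ℝ → ℝ} (h : ContDiff ℝ ∞ p) (θ β : ℝ) :
    HasDerivAt (Nf p θ) (rho p (θ + β) - Df p θ β) β := by
  unfold Nf
  refine (((hd_shift (smooth_d h) θ β).add ((Real.hasDerivAt_sin β).const_mul (p θ))).sub
    ((Real.hasDerivAt_cos β).const_mul (deriv p θ))).congr_deriv ?_
  unfold rho Df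
  ring

theorem Df_deriv {p : ℝ → ℝ} (h : ContDiff ℝ ∞ p) (θ β : ℝ) :
    HasDerivAt (Df p θ) (Nf p θ β) β := by
  unfold Df
  refine (((hd_shift h θ β).sub ((Real.hasDerivAt_cos β).const_mul (p θ))).sub
    ((Real.hasDerivAt_sin β).const_mul (deriv p θ))).congr_deriv ?_
  unfold Nf
  ring

theorem Ef_deriv {p : ℝ → ℝ} (h : ContDiff ℝ ∞ p) (θ β : ℝ) :
    HasDerivAt (Ef p θ) (rho p (θ + β) * Real.sin β) β := by
  unfold Ef
  refine (((Nf_deriv h θ β).mul (Real.hasDerivAt_sin β)).sub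
    ((Df_deriv h θ β).mul (Real.hasDerivAt_cos β))).congr_deriv ?_
  ring

theorem Ef_zero (p : ℝ → ℝ) (θ : ℝ) : Ef p θ 0 = 0 := by
  unfold Ef Df Nf
  simp

theorem rho_pos {p : ℝ → ℝ} (hp : Supp p) (α : ℝ) : 0 < rho p α := hp.pos α

/-- positivity of `E` -/
theorem Ef_pos {p : ℝ → ℝ} (hp : Supp p) (θ β : ℝ) (h0 : β ≠ 0) (h1 : |β| ≤ Real.pi / 2) :
    0 < Ef p θ β := by
  have hpi := Real.pi_pos
  have hcont : Continuous (Ef p θ) :=
    continuous_iff_continuousAt.2 fun b => (Ef_deriv hp.smooth θ b).continuousAt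
  rcases lt_or_gt_of_ne h0 with h | h
  · have hanti : StrictAntiOn (Ef p θ) (Icc (-(Real.pi / 2)) 0) := by
      refine strictAntiOn_of_deriv_neg (convex_Icc _ _) hcont.continuousOn ?_
      intro b hb
      rw [interior_Icc] at hb
      rw [(Ef_deriv hp.smooth θ b).deriv]
      exact mul_neg_of_pos_of_neg (rho_pos hp _)
        (Real.sin_neg_of_neg_of_neg_pi_lt hb.2 (by linarith [hb.1]))
    have h2 := abs_le.1 h1
    have h3 := hanti ⟨h2.1, h.le⟩ ⟨by linarith, le_rfl⟩ h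
    rwa [Ef_zero] at h3
  · have hmono : StrictMonoOn (Ef p θ) (Icc 0 (Real.pi / 2)) := by
      refine strictMonoOn_of_deriv_pos (convex_Icc _ _) hcont.continuousOn ?_
      intro b hb
      rw [interior_Icc] at hb
      rw [(Ef_deriv hp.smooth θ b).deriv]
      exact mul_pos (rho_pos hp _) (Real.sin_pos_of_pos_of_lt_pi hb.1 (by linarith [hb.2]))
    have h2 := abs_le.1 h1
    have h3 := hmono ⟨le_rfl, by linarith⟩ ⟨h.le, h2.2⟩ h
    rwa [Ef_zero] at h3

theorem cos_pos' {β : ℝ} (h : |β| < Real.pi / 2) : 0 < Real.cos β :=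
  Real.cos_pos_of_mem_Ioo ⟨(abs_lt.1 h).1, (abs_lt.1 h).2⟩

theorem tau_deriv {p : ℝ → ℝ} (hp : Supp p) (θ β : ℝ) (h : |β| < Real.pi / 2) :
    HasDerivAt (fun b => tau p (θ, b))
      ((rho p (θ + β) * Real.cos β + Ef p θ β) / Real.cos β ^ 2) β := by
  unfold tau
  have hc := cos_pos' h
  refine ((Nf_deriv hp.smooth θ β).div (Real.hasDerivAt_cos β) hc.ne').congr_deriv ?_
  unfold Ef
  congr 1
  ring

theorem alg1 {c s pt dpt pf dpf : ℝ} (hc : c ≠ 0) (h1 : s ^ 2 + c ^ 2 = 1) :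
    pf + ((dpf + pt * s - dpt * c) * s - (pf - pt * c - dpt * s) * c) / c = (pt + dpf * s) / c := by
  rw [eq_div_iff hc, add_mul, div_mul_cancel₀ _ hc]
  linear_combination pt * h1

theorem alg2 {c s C S pt dpt dpf : ℝ} (hc : c ≠ 0) (h1 : s ^ 2 + c ^ 2 = 1) :
    pt * S + dpt * C + (dpf + pt * s - dpt * c) / c * C =
      (pt + dpf * s) / c * (S * c + C * s) + dpf * (C * c - S * s) := by
  field_simp
  linear_combination (-(dpf * C)) * h1

theorem alg3 {c s C S pt dpt dpf : ℝ} (hc : c ≠ 0) (h1 : s ^ 2 + c ^ 2 = 1) :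
    pt * (-C) + dpt * S + (dpf + pt * s - dpt * c) / c * S =
      (pt + dpf * s) / c * (-(C * c - S * s)) + dpf * (S * c + C * s) := by
  field_simp
  linear_combination (-(dpf * S)) * h1

theorem rel {p : ℝ → ℝ} (θ β : ℝ) (h : |β| < Real.pi / 2) :
    gam p θ + tau p (θ, β) • e θ = Psi p (θ + β) (Ef p θ β / Real.cos β) := by
  have hc := (cos_pos' h).ne'
  have h1 := Real.sin_sq_add_cos_sq β
  have e1 : p (θ + β) + Ef p θ β / Real.cos β =
      (p θ + deriv p (θ + β) * Real.sin β) / Real.cos β := by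
    unfold Ef Nf Df
    exact alg1 hc h1
  apply Complex.ext
  · have h2 := alg2 (c := Real.cos β) (s := Real.sin β) (C := Real.cos θ) (S := Real.sin θ)
      (pt := p θ) (dpt := deriv p θ) (dpf := deriv p (θ + β)) hc h1
    rw [← Real.sin_add, ← Real.cos_add, ← e1] at h2
    simp only [gam, Psi, e, nu, tau, Complex.add_re, Complex.real_smul, Complex.mul_re,
      Complex.ofReal_re, Complex.ofReal_im, zero_mul, sub_zero]
    have h3 : Nf p θ β = deriv p (θ + β) + p θ * Real.sin β - deriv p θ * Real.cos β := rfl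
    rw [h3]
    linear_combination h2
  · have h2 := alg3 (c := Real.cos β) (s := Real.sin β) (C := Real.cos θ) (S := Real.sin θ)
      (pt := p θ) (dpt := deriv p θ) (dpf := deriv p (θ + β)) hc h1
    rw [← Real.sin_add, ← Real.cos_add, ← e1] at h2
    simp only [gam, Psi, e, nu, tau, Complex.add_im, Complex.real_smul, Complex.mul_im,
      Complex.ofReal_re, Complex.ofReal_im, zero_mul, add_zero]
    have h3 : Nf p θ β = deriv p (θ + β) + p θ * Real.sin β - deriv p θ * Real.cos β := rfl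
    rw [h3]
    linear_combination h2

theorem tau_smooth {p : ℝ → ℝ} (hp : Supp p) :
    ContDiffOn ℝ ∞ (tau p) {x | |x.2| < Real.pi / 2} := by
  have h1 : ContDiff ℝ ∞ (fun x : ℝ × ℝ => Nf p x.1 x.2) := by
    unfold Nf
    have hs := hp.smooth
    have hs' := smooth_d hp.smooth
    have a1 : ContDiff ℝ ∞ (fun x : ℝ × ℝ => deriv p (x.1 + x.2)) :=
      hs'.comp (contDiff_fst.add contDiff_snd)
    have a2 : ContDiff ℝ ∞ (fun x : ℝ × ℝ => p x.1 * Real.sin x.2) :=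
      (hs.comp contDiff_fst).mul (Real.contDiff_sin.comp contDiff_snd)
    have a3 : ContDiff ℝ ∞ (fun x : ℝ × ℝ => deriv p x.1 * Real.cos x.2) :=
      (hs'.comp contDiff_fst).mul (Real.contDiff_cos.comp contDiff_snd)
    exact (a1.add a2).sub a3
  have h2 : ContDiff ℝ ∞ (fun x : ℝ × ℝ => Real.cos x.2) := Real.contDiff_cos.comp contDiff_snd
  unfold tau
  exact h1.contDiffOn.div h2.contDiffOn fun x hx => (cos_pos' hx).ne'

theorem Nf_cont {p : ℝ → ℝ} (hp : Supp p) (θ : ℝ) : Continuous (Nf p θ) :=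
  continuous_iff_continuousAt.2 fun b => (Nf_deriv hp.smooth θ b).continuousAt

theorem upper {p : ℝ → ℝ} (hp : Supp p) (θ T : ℝ) :
    ∃ β : ℝ, |β| < Real.pi / 2 ∧ T ≤ tau p (θ, β) := by
  have hpi := Real.pi_pos
  have hN : 0 < Nf p θ (Real.pi / 2) := by
    have h := Ef_pos hp θ (Real.pi / 2) (by positivity) (by rw [abs_of_pos (by positivity)])
    unfold Ef at h
    rw [Real.sin_pi_div_two, Real.cos_pi_div_two] at h
    linarith
  have h1 : Tendsto (Nf p θ) (𝓝[<] (Real.pi / 2)) (𝓝 (Nf p θ (Real.pi / 2))) :=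
    ((Nf_cont hp θ).tendsto _).mono_left nhdsWithin_le_nhds
  have h2 : Tendsto (fun β => (Real.cos β)⁻¹) (𝓝[<] (Real.pi / 2)) atTop :=
    tendsto_inv_nhdsGT_zero.comp Real.tendsto_cos_pi_div_two
  have h3 := h1.pos_mul_atTop hN h2
  have h4 : ∀ᶠ β in 𝓝[<] (Real.pi / 2), β ∈ Ioo (-(Real.pi / 2)) (Real.pi / 2) :=
    Ioo_mem_nhdsLT (by linarith)
  obtain ⟨β, hβ, hβ2⟩ := ((h3.eventually_ge_atTop T).and h4).exists
  refine ⟨β, abs_lt.2 ⟨hβ2.1, hβ2.2⟩, ?_⟩
  unfold tau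
  rw [div_eq_mul_inv]
  exact hβ

theorem lower {p : ℝ → ℝ} (hp : Supp p) (θ T : ℝ) :
    ∃ β : ℝ, |β| < Real.pi / 2 ∧ tau p (θ, β) ≤ T := by
  have hpi := Real.pi_pos
  have hN : Nf p θ (-(Real.pi / 2)) < 0 := by
    have h := Ef_pos hp θ (-(Real.pi / 2)) (neg_ne_zero.2 (by positivity))
      (by rw [abs_neg, abs_of_pos (by positivity)])
    unfold Ef at h
    rw [Real.sin_neg, Real.cos_neg, Real.sin_pi_div_two, Real.cos_pi_div_two] at h
    linarith
  have h1 : Tendsto (Nf p θ) (𝓝[>] (-(Real.pi / 2))) (𝓝 (Nf p θ (-(Real.pi / 2)))) :=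
    ((Nf_cont hp θ).tendsto _).mono_left nhdsWithin_le_nhds
  have h2 : Tendsto (fun β => (Real.cos β)⁻¹) (𝓝[>] (-(Real.pi / 2))) atTop :=
    tendsto_inv_nhdsGT_zero.comp Real.tendsto_cos_neg_pi_div_two
  have h3 := h1.neg_mul_atTop hN h2
  have h4 : ∀ᶠ β in 𝓝[>] (-(Real.pi / 2)), β ∈ Ioo (-(Real.pi / 2)) (Real.pi / 2) :=
    Ioo_mem_nhdsGT (by linarith)
  obtain ⟨β, hβ, hβ2⟩ := ((h3.eventually_le_atBot T).and h4).exists
  refine ⟨β, abs_lt.2 ⟨hβ2.1, hβ2.2⟩, ?_⟩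
  unfold tau
  rw [div_eq_mul_inv]
  exact hβ

theorem deriv_per {p : ℝ → ℝ} (hp : Supp p) (α : ℝ) :
    deriv p (α + 2 * Real.pi) = deriv p α := by
  have h : (fun x => p (x + 2 * Real.pi)) = p := funext hp.per
  have h2 := deriv_comp_add_const p (2 * Real.pi) α
  rw [h] at h2
  exact h2.symm

theorem gx_TAU : S_TAU := by
  intro p hp
  refine ⟨tau_smooth hp, ?_, ?_, ?_, ?_, ?_, ?_⟩
  · intro θ β h
    rw [(tau_deriv hp θ β h).deriv]
    have hc := cos_pos' h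
    have hr := rho_pos hp (θ + β)
    have hE : 0 ≤ Ef p θ β := by
      by_cases h0 : β = 0
      · rw [h0, Ef_zero]
      · exact (Ef_pos hp θ β h0 h.le).le
    positivity
  · intro θ T
    obtain ⟨β₁, h1, h2⟩ := lower hp θ T
    obtain ⟨β₂, h3, h4⟩ := upper hp θ T
    exact ⟨β₁, β₂, h1, h3, h2, h4⟩
  · intro θ
    unfold tau Nf
    simp
  · intro θ β h0 h1
    exact Ef_pos hp θ β (abs_pos.1 h0) h1.le
  · intro θ β
    have e1 : θ + 2 * Real.pi + β = θ + β + 2 * Real.pi := by ring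
    simp only [tau, Nf]
    rw [e1, deriv_per hp, deriv_per hp, hp.per]
  · intro θ β h
    exact rel θ β h

end Pool.Agent.H25.GX
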